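import Pool.Agent.Run7.h96.IX.Stm

/-!
# Project IX (helper96), piece NOF (helper220)
-/

set_option autoImplicit false

open Finset Filter Topology

namespace Run7.h220.IX

open Run7.h96.IX

noncomputable section

/-- Only the pair of full sets meets in `n` points. -/
theorem cnt_full_le {n : ℕ} (A B : Finset (Finset (Fin n))) : cnt n A B ≤ 1 := by
  unfold cnt
  rw [Finset.card_le_one]
  have key : ∀ p : Finset (Fin n) × Finset (Fin n), (p.1 ∩ p.2).card = n →
      p = (univ, univ) := by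
    intro p hp
    have h1 : p.1 ∩ p.2 = univ := by
      rw [← Finset.card_eq_iff_eq_univ, hp, Fintype.card_fin]
    have h2 : p.1 = univ := Finset.eq_univ_of_forall fun x => by
      have : x ∈ p.1 ∩ p.2 := h1 ▸ mem_univ x
      exact (mem_inter.1 this).1
    have h3 : p.2 = univ := Finset.eq_univ_of_forall fun x => by
      have : x ∈ p.1 ∩ p.2 := h1 ▸ mem_univ x
      exact (mem_inter.1 this).2
    exact Prod.ext h2 h3
  intro a ha b hb
  rw [key a (mem_filter.1 ha).2, key b (mem_filter.1 hb).2]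

/-- The star of the point `0`. -/
def star (k : ℕ) : Finset (Finset (Fin (k + 1))) :=
  (univ : Finset (Finset (Fin (k + 1)))).filter fun S => (0 : Fin (k + 1)) ∈ S

theorem star_card (k : ℕ) : 2 ^ k ≤ (star k).card := by
  have h1 := Finset.card_filter_add_card_filter_not (s := (univ : Finset (Finset (Fin (k + 1)))))
    (fun S => (0 : Fin (k + 1)) ∈ S)
  have h2 : ((univ : Finset (Finset (Fin (k + 1)))).filter
      fun S => ¬ (0 : Fin (k + 1)) ∈ S).card ≤ (star k).card := by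
    apply Finset.card_le_card_of_injOn (fun S => Sᶜ)
    · intro S hS
      have h3 := (mem_filter.1 (Finset.mem_coe.1 hS)).2
      exact Finset.mem_coe.2 (mem_filter.2 ⟨mem_univ _, Finset.mem_compl.2 h3⟩)
    · exact compl_injective.injOn
  have h3 : (univ : Finset (Finset (Fin (k + 1)))).card = 2 ^ (k + 1) := by
    rw [Finset.card_univ, Fintype.card_finset, Fintype.card_fin]
  have h4 : ((univ : Finset (Finset (Fin (k + 1)))).filter
      fun S => (0 : Fin (k + 1)) ∈ S).card = (star k).card := rfl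
  rw [pow_succ] at h3
  omega

theorem star_good (k : ℕ) : ∃ lam, 1 ≤ lam ∧ lam ≤ k + 1 ∧
    Good (k + 1) lam (1 / ((k : ℝ) + 1)) (star k).card := by
  classical
  have hmaps : ∀ p ∈ star k ×ˢ star k, (p.1 ∩ p.2).card ∈ Finset.Icc 1 (k + 1) := by
    intro p hp
    have h1 := (mem_filter.1 (mem_product.1 hp).1).2
    have h2 := (mem_filter.1 (mem_product.1 hp).2).2
    rw [Finset.mem_Icc]
    constructor
    · exact Finset.card_pos.2 ⟨0, mem_inter.2 ⟨h1, h2⟩⟩
    · exact (Finset.card_le_univ _).trans (by rw [Fintype.card_fin])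
  have hsum := Finset.card_eq_sum_card_fiberwise hmaps
  have hne : (Finset.Icc 1 (k + 1)).Nonempty := ⟨1, by simp⟩
  obtain ⟨lam, hlam, hle⟩ := Finset.exists_le_of_sum_le (s := Finset.Icc 1 (k + 1))
    (f := fun _ => ((star k ×ˢ star k).card : ℝ) / ((k : ℝ) + 1))
    (g := fun lam => (cnt lam (star k) (star k) : ℝ)) hne (by
      have hcard : (Finset.Icc 1 (k + 1)).card = k + 1 := by simp
      have hk : (k : ℝ) + 1 ≠ 0 := by positivity
      rw [Finset.sum_const, hcard, nsmul_eq_mul, hsum]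
      push_cast
      rw [mul_div_cancel₀ _ hk]
      exact le_of_eq rfl)
  rw [Finset.mem_Icc] at hlam
  refine ⟨lam, hlam.1, hlam.2, star k, star k, rfl, rfl, ?_⟩
  have h5 : ((star k ×ˢ star k).card : ℝ) = ((star k).card : ℝ) ^ 2 := by
    rw [Finset.card_product]; push_cast; ring
  have h6 : ((star k ×ˢ star k).card : ℝ) / ((k : ℝ) + 1) ≤ (cnt lam (star k) (star k) : ℝ) := hle
  rw [h5] at h6
  calc 1 / ((k : ℝ) + 1) * ((star k).card : ℝ) ^ 2 = ((star k).card : ℝ) ^ 2 / ((k : ℝ) + 1) := by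
        ring
    _ ≤ _ := h6

theorem t_NOF (hMM : S_MM) : S_NOF := by
  rintro ⟨f, hf⟩
  obtain ⟨n0, h0⟩ := hf (1 / 4) (by norm_num)
  obtain ⟨k, hk0, hk2⟩ : ∃ k : ℕ, n0 ≤ k ∧ 2 ≤ k := ⟨n0 + 2, by omega, by omega⟩
  have hkpos : (0 : ℝ) < (k : ℝ) + 1 := by positivity
  have hk2' : (2 : ℝ) ≤ k := by exact_mod_cast hk2
  have hlt : k + 1 ≤ 2 ^ k := Nat.lt_two_pow_self
  have hltR : (k : ℝ) + 1 ≤ 2 ^ k := by exact_mod_cast hlt
  have hc1 : 1 / ((k : ℝ) + 1) ≤ 1 := by
    rw [div_le_one hkpos]; linarith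
  have hc0 : (2 : ℝ) ^ (-((k + 1 : ℕ) : ℝ)) ≤ 1 / ((k : ℝ) + 1) := by
    rw [Real.rpow_neg (by norm_num), Real.rpow_natCast, ← one_div]
    apply one_div_le_one_div_of_le hkpos
    calc (k : ℝ) + 1 ≤ 2 ^ k := hltR
      _ ≤ 2 ^ (k + 1) := pow_le_pow_right₀ (by norm_num) (Nat.le_succ k)
  obtain ⟨lam, hl1, hl2, hgood⟩ := star_good k
  have hA := h0 (k + 1) (by omega) lam hl1 hl2 _ hc0 hc1
  have hB := h0 (k + 1) (by omega) (k + 1) (by omega) le_rfl _ hc0 hc1
  -- the lower bound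
  have hM1 : (star k).card ^ 2 ≤ M (k + 1) lam (1 / ((k : ℝ) + 1)) :=
    ((hMM (k + 1) lam _).1 _ hgood).2
  have hM2 : (2 ^ k) ^ 2 ≤ M (k + 1) lam (1 / ((k : ℝ) + 1)) :=
    (Nat.pow_le_pow_left (star_card k) 2).trans hM1
  have hL : 2 * (k : ℝ) ≤ Real.logb 2 (M (k + 1) lam (1 / ((k : ℝ) + 1))) := by
    rw [Real.le_logb_iff_rpow_le (by norm_num) (by
      have : 0 < M (k + 1) lam (1 / ((k : ℝ) + 1)) := lt_of_lt_of_le (by positivity) hM2
      exact_mod_cast this)]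
    have h7 : (2 : ℝ) ^ (2 * (k : ℝ)) = ((2 : ℝ) ^ k) ^ 2 := by
      rw [← pow_mul, ← Real.rpow_natCast]; push_cast; ring_nf
    rw [h7]
    exact_mod_cast hM2
  -- the upper bound
  obtain ⟨m, hm1, hmg, hmM⟩ := (hMM (k + 1) (k + 1) (1 / ((k : ℝ) + 1))).2 hc1 le_rfl
  obtain ⟨A, B, hAm, hBm, hcnt⟩ := hmg
  have h8 : (cnt (k + 1) A B : ℝ) ≤ 1 := by exact_mod_cast cnt_full_le A B
  have h9 : (m : ℝ) ^ 2 ≤ (k : ℝ) + 1 := by
    have h10 := hcnt.trans h8
    rw [one_div, inv_mul_le_iff₀ hkpos, mul_one] at h10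
    exact h10
  have hU : Real.logb 2 (M (k + 1) (k + 1) (1 / ((k : ℝ) + 1))) ≤ k := by
    rw [hmM]
    have hmpos : (0 : ℝ) < ((m ^ 2 : ℕ) : ℝ) := by
      have : 0 < m ^ 2 := by positivity
      exact_mod_cast this
    rw [Real.logb_le_iff_le_rpow (by norm_num) hmpos, Real.rpow_natCast]
    push_cast
    exact h9.trans hltR
  rw [abs_le] at hA hB
  push_cast at hA hB
  linarith [hA.1, hA.2, hB.1, hB.2]

end

end Run7.h220.IX
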